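import Pool.Agent.E8helper80.AX.DefsG
import Pool.Agent.E8helper80.AX.B1
import Pool.Agent.E8helper57.AX.Fac
import Pool.Agent.E8helper62.AXG.B3G

/-!
# Project AX: piece B3H (the apex coefficient vanishes, the second range); after
`E8helper62/AXG/B3G.lean`
-/

set_option autoImplicit false

namespace Pool.Agent.E8helper42.AX

open Finset Polynomial
open Pool.Agent.E8helper80.AX
open Pool.Agent.E8helper57.AX (factor)
open Pool.Agent.E8helper62.AXG (KG_bounds wc_zero supp ph_high ph_low tc_zero col0)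

lemma KG_bounds2 {M : ℕ} (hM : 1 ≤ M) : (M : ℝ) + 1 / 3 < KG M ∧
    3 * (KG M - M) - 1 < M * (2 * M + 1 - 2 * KG M) ∧
    KG M - M < (M + 1) * (2 * M + 1 - 2 * KG M) ∧
    (M : ℝ) + 1 < (KG M - M) * (2 * M + 4) := by
  have hM' : (1 : ℝ) ≤ M := by exact_mod_cast hM
  have h0 : (M : ℝ) + 2 / 3 < √((M * M + 2 * M : ℕ) : ℝ) := by
    rw [Real.lt_sqrt (by linarith)]
    push_cast
    nlinarith
  have h2 : √((M * M + 2 * M : ℕ) : ℝ) < (M : ℝ) + 1 := by
    rw [Real.sqrt_lt' (by linarith)]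
    push_cast
    nlinarith
  have h3 : √((M * M + 2 * M : ℕ) : ℝ) * √((M * M + 2 * M : ℕ) : ℝ) = (M : ℝ) * M + 2 * M := by
    rw [Real.mul_self_sqrt (Nat.cast_nonneg _)]
    push_cast
    ring
  unfold KG
  set s := √((M * M + 2 * M : ℕ) : ℝ) with hs
  have h5 : (2 * (M : ℝ) + 3) * s < (2 * M + 1) * (M + 2) := by
    by_contra hc
    push Not at hc
    have h7 := mul_self_le_mul_self
      (show (0 : ℝ) ≤ (2 * M + 1) * (M + 2) by positivity) hc
    have h8 : (2 * (M : ℝ) + 3) * s * ((2 * M + 3) * s) =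
        (2 * (M : ℝ) + 3) * (2 * M + 3) * (M * M + 2 * M) := by
      rw [← h3]
      ring
    rw [h8] at h7
    nlinarith
  have h6 : (M : ℝ) * (M + 2) + (M + 1) < (M + 2) * s := by
    by_contra hc
    push Not at hc
    have h6' : 0 ≤ ((M : ℝ) + 2) * s := mul_nonneg (by linarith) (by linarith)
    have h7 := mul_self_le_mul_self h6' hc
    have h8 : ((M : ℝ) + 2) * s * ((M + 2) * s) =
        ((M : ℝ) + 2) * (M + 2) * (M * M + 2 * M) := by
      rw [← h3]
      ring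
    rw [h8] at h7
    nlinarith
  refine ⟨by linarith, by nlinarith, by nlinarith, by nlinarith⟩

section
variable {M h m : ℕ} {f : (ℤ × ℤ) →₀ ℚ}

lemma ph_zero (hM : 1 ≤ M) (hd1 : KG M * h - (KG M + 1) * m < KG M - M)
    (hf : (↑f.support : Set (ℤ × ℤ)) ⊆ ABG M h)
    (hH : ∀ b < m, ∀ c : ℤ, ⌊KG M * h - (KG M + 1) * (b : ℝ)⌋ < c + ((M : ℤ) + 2) * ((m : ℤ) - b) →
      tc f c b = 0) {c : ℤ} (hc : 0 < c) : ph f c = 0 := by
  obtain ⟨k1, k2, k3, k4⟩ := KG_bounds hM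
  have hM' : (1 : ℝ) ≤ M := by exact_mod_cast hM
  have hc' : (1 : ℝ) ≤ c := by exact_mod_cast hc
  apply taylor_injective 1
  rw [map_zero]
  ext b
  rw [coeff_zero]
  by_cases hb : b < m
  · rw [ph_taylor]
    refine tc_zero hH hb ?_
    have hb' : (b : ℝ) < m := by exact_mod_cast hb
    have : 0 ≤ (M + 1 - KG M) * ((m : ℝ) - b) := mul_nonneg (by linarith) (by linarith)
    linarith
  · push Not at hb
    have hdeg : (ph f c).degree < (m : ℕ) := by
      rw [degree_lt_iff_coeff_zero]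
      intro k hk
      apply ph_high hM hf
      have hk' : (m : ℝ) ≤ k := by exact_mod_cast hk
      have h9 := mul_le_mul_of_nonneg_left hk' (show (0 : ℝ) ≤ KG M + 1 by linarith)
      linarith
    apply coeff_eq_zero_of_degree_lt
    rw [degree_taylor]
    exact hdeg.trans_le (by exact_mod_cast hb)

lemma wc_low (hM : 1 ≤ M) (hd1 : KG M * h - (KG M + 1) * m < KG M - M)
    (hf : (↑f.support : Set (ℤ × ℤ)) ⊆ ABG M h)
    (hH : ∀ b < m, ∀ c : ℤ, ⌊KG M * h - (KG M + 1) * (b : ℝ)⌋ < c + ((M : ℤ) + 2) * ((m : ℤ) - b) →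
      tc f c b = 0) {t : ℤ} {k : ℕ} (hk : (k : ℤ) < t) : wc f t k = 0 := by
  have h1 := ph_zero hM hd1 hf hH (c := t - k) (by omega)
  have h2 := ph_coeff f (t - k) k
  rw [h1, coeff_zero, sub_add_cancel] at h2
  exact h2.symm

lemma ph_deg (hM : 1 ≤ M) (hd1 : KG M * h - (KG M + 1) * m < KG M - M)
    (hf : (↑f.support : Set (ℤ × ℤ)) ⊆ ABG M h) {i : ℕ} (hi : i ≤ M + 1) :
    (ph f (-(i : ℤ))).natDegree ≤ m := by
  obtain ⟨k1, k2, k3, k4⟩ := KG_bounds hM
  have hM' : (1 : ℝ) ≤ M := by exact_mod_cast hM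
  rw [natDegree_le_iff_coeff_eq_zero]
  intro k hk
  apply ph_high hM hf
  have hk' : (m : ℝ) + 1 ≤ k := by exact_mod_cast hk
  have hi' : (i : ℝ) ≤ M + 1 := by exact_mod_cast hi
  have h9 := mul_le_mul_of_nonneg_left hk' (show (0 : ℝ) ≤ KG M + 1 by linarith)
  push_cast
  linarith

lemma row (hM : 1 ≤ M) (hd1 : KG M * h - (KG M + 1) * m < KG M - M)
    (hf : (↑f.support : Set (ℤ × ℤ)) ⊆ ABG M h)
    (hH : ∀ b < m, ∀ c : ℤ, ⌊KG M * h - (KG M + 1) * (b : ℝ)⌋ < c + ((M : ℤ) + 2) * ((m : ℤ) - b) →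
      tc f c b = 0) {N : ℕ} (hN : N ≤ M + 1) (hN1 : 1 ≤ N)
    (hdN : KG M * h - (KG M + 1) * m < N * (2 * M + 1 - 2 * KG M)) (hm : 2 * (M + 1) ≤ m) {i : ℕ}
    (hi : i ≤ N) :
    ∃ r : Polynomial ℚ, r.natDegree ≤ i ∧
      (∀ t ≤ N, wc f (t : ℤ) (t + i) = ((1 - X) ^ (m - 2 * i) * r).coeff t) ∧
      (i = N → r.eval 1 = 0) := by
  obtain ⟨k1, k2, k3, k4⟩ := KG_bounds hM
  have hM' : (1 : ℝ) ≤ M := by exact_mod_cast hM
  have hcoef : ∀ (Q : ℚ[X]), ph f (-(i : ℤ)) = X ^ i * Q → ∀ t : ℕ,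
      wc f (t : ℤ) (t + i) = Q.coeff t := by
    intro Q hQ t
    have h1 := ph_coeff f (-(i : ℤ)) (t + i)
    rw [hQ, coeff_X_pow_mul] at h1
    rw [h1]
    congr 1
    push_cast
    ring
  have hlow : ∀ k < i, (ph f (-(i : ℤ))).coeff k = 0 := fun k hk =>
    ph_low hM hf (by omega)
  have hi9 : i ≤ M + 1 := hi.trans hN
  have hdeg := ph_deg hM hd1 hf hi9
  by_cases hiN : i = N
  · have htay : ∀ b < m - 2 * N + 1, (taylor 1 (ph f (-(i : ℤ)))).coeff b = 0 := by
      intro b hb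
      rw [ph_taylor]
      refine tc_zero hH (by omega) ?_
      have hb2 : b + 2 * N ≤ m := by omega
      have hb' : (2 : ℝ) * N ≤ (m : ℝ) - b := by
        have : ((b + 2 * N : ℕ) : ℝ) ≤ (m : ℝ) := by exact_mod_cast hb2
        push_cast at this
        linarith
      have h5 := mul_le_mul_of_nonneg_left hb' (show (0 : ℝ) ≤ M + 1 - KG M by linarith)
      rw [hiN]
      push_cast
      linarith
    obtain ⟨q, hq, hqd⟩ := factor hlow htay hdeg
    refine ⟨(1 - X) * q, ?_, ?_, ?_⟩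
    · refine (natDegree_mul_le).trans ?_
      have : (1 - X : ℚ[X]).natDegree ≤ 1 := by
        refine (natDegree_sub_le _ _).trans ?_
        simp
      omega
    · intro t _
      have e : (1 - X : ℚ[X]) ^ (m - 2 * N + 1) * q = (1 - X) ^ (m - 2 * i) * ((1 - X) * q) := by
        rw [hiN, pow_succ]
        ring
      rw [← e]
      exact hcoef _ hq t
    · intro _
      simp
  · have htay : ∀ b < m - 2 * i, (taylor 1 (ph f (-(i : ℤ)))).coeff b = 0 := by
      intro b hb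
      rw [ph_taylor]
      refine tc_zero hH (by omega) ?_
      have hb2 : b + (2 * i + 1) ≤ m := by omega
      have hb' : (2 : ℝ) * i + 1 ≤ (m : ℝ) - b := by
        have : ((b + (2 * i + 1) : ℕ) : ℝ) ≤ (m : ℝ) := by exact_mod_cast hb2
        push_cast at this
        linarith
      have h5 := mul_le_mul_of_nonneg_left hb' (show (0 : ℝ) ≤ M + 1 - KG M by linarith)
      have h6 : 0 ≤ (i : ℝ) * (2 * M + 1 - 2 * KG M) :=
        mul_nonneg (Nat.cast_nonneg i) (by linarith)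
      push_cast
      linarith
    obtain ⟨q, hq, hqd⟩ := factor hlow htay hdeg
    refine ⟨q, by omega, fun t _ => hcoef _ hq t, fun h => absurd h hiN⟩

lemma column (hM : 1 ≤ M) (hd1 : KG M * h - (KG M + 1) * m < KG M - M)
    (hf : (↑f.support : Set (ℤ × ℤ)) ⊆ ABG M h)
    (hH : ∀ b < m, ∀ c : ℤ, ⌊KG M * h - (KG M + 1) * (b : ℝ)⌋ < c + ((M : ℤ) + 2) * ((m : ℤ) - b) →
      tc f c b = 0) {t : ℕ} (ht : t ≤ M) (hh : 2 * M ≤ h) :
    ∃ g : Polynomial ℚ, g.natDegree ≤ t - 1 ∧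
      ∀ i : ℕ, wc f (t : ℤ) (t + i) = ((1 + X) ^ (h - 2 * t) * g).coeff i := by
  obtain ⟨k1, k2, k3, k4⟩ := KG_bounds hM
  have hM' : (1 : ℝ) ≤ M := by exact_mod_cast hM
  have hpos : ∀ p ∈ f.support, 0 ≤ p.2 := fun p hp => (supp hM hf hp).1
  rcases Nat.eq_zero_or_pos t with h0 | h0
  · subst h0
    refine ⟨C (f (0, (h : ℤ))), by rw [natDegree_C], fun i => ?_⟩
    rw [← colp_taylor, col0 hM hf, taylor_mul, taylor_pow, taylor_C, taylor_X, zero_add, mul_zero,
      Nat.sub_zero, C_1, add_comm X, mul_comm]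
  · have hlow : ∀ j < h - 2 * t, (colp f (t : ℤ)).coeff j = 0 := by
      intro j hj
      rw [colp_coeff f hpos]
      by_contra hne
      have hp : ((t : ℤ), (j : ℤ)) ∈ f.support := Finsupp.mem_support_iff.2 hne
      obtain ⟨-, -, h3, h4, -⟩ := supp hM hf hp
      simp only [Int.cast_natCast] at h4
      have h5 : (2 : ℝ) * t + 1 ≤ (h : ℝ) - j := by
        have : j + (2 * t + 1) ≤ h := by omega
        have : ((j + (2 * t + 1) : ℕ) : ℝ) ≤ h := by exact_mod_cast this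
        push_cast at this
        linarith
      have h6 : (t : ℝ) ≤ M := by exact_mod_cast ht
      have h7 := mul_le_mul_of_nonneg_left h5 (show (0 : ℝ) ≤ KG M - M by linarith)
      have h8 := mul_le_mul_of_nonneg_right h6 (show (0 : ℝ) ≤ 2 * M + 1 - 2 * KG M by linarith)
      linarith
    have hdeg : (colp f (t : ℤ)).natDegree ≤ h - 1 := by
      rw [natDegree_le_iff_coeff_eq_zero]
      intro j hj
      rw [colp_coeff f hpos]
      by_contra hne
      have hp : ((t : ℤ), (j : ℤ)) ∈ f.support := Finsupp.mem_support_iff.2 hne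
      obtain ⟨-, -, h3, -, h5⟩ := supp hM hf hp
      simp only [Int.cast_natCast] at h5
      have h6 : (h : ℝ) ≤ j := by
        have : h ≤ j := by omega
        exact_mod_cast this
      have h7 : (1 : ℝ) ≤ t := by exact_mod_cast h0
      have h8 : KG M * ((h : ℝ) - j) ≤ 0 :=
        mul_nonpos_of_nonneg_of_nonpos (by linarith) (by linarith)
      linarith
    have htay : ∀ b < t, (taylor 1 (colp f (t : ℤ))).coeff b = 0 := by
      intro b hb
      rw [colp_taylor]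
      exact wc_low hM hd1 hf hH (by exact_mod_cast hb)
    obtain ⟨q, hq, hqd⟩ := factor hlow htay hdeg
    have hT : taylor 1 (colp f (t : ℤ)) =
        X ^ t * ((1 + X) ^ (h - 2 * t) * ((-1) ^ t * taylor 1 q)) := by
      rw [hq, taylor_mul, taylor_mul, taylor_pow, taylor_pow, taylor_X, map_sub, taylor_one,
        taylor_X]
      have e : (C 1 - (X + C 1) : ℚ[X]) = -1 * X := by ring
      rw [e, mul_pow, C_1, add_comm X]
      ring
    refine ⟨(-1) ^ t * taylor 1 q, ?_, fun i => ?_⟩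
    · have e : ((-1 : ℚ[X]) ^ t) = C ((-1) ^ t) := by
        rw [C_pow, C_neg, C_1]
      rw [e]
      refine (natDegree_C_mul_le _ _).trans ?_
      rw [natDegree_taylor]
      omega
    · rw [← colp_taylor, hT, add_comm t i, coeff_X_pow_mul]


lemma column2 (hM : 1 ≤ M) (hd1 : KG M * h - (KG M + 1) * m < KG M - M)
    (hf : (↑f.support : Set (ℤ × ℤ)) ⊆ ABG M h)
    (hH : ∀ b < m, ∀ c : ℤ, ⌊KG M * h - (KG M + 1) * (b : ℝ)⌋ < c + ((M : ℤ) + 2) * ((m : ℤ) - b) →
      tc f c b = 0) (hh : 2 * M + 3 ≤ h) :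
    ∃ g : Polynomial ℚ, g.natDegree ≤ M ∧
      ∀ i : ℕ, wc f ((M + 1 : ℕ) : ℤ) (M + 1 + i) =
        ((1 + X) ^ (h - (2 * M + 3)) * g).coeff i := by
  obtain ⟨k1, k2, k3, k4⟩ := KG_bounds hM
  obtain ⟨l1, l2, l3, l4⟩ := KG_bounds2 hM
  have hM' : (1 : ℝ) ≤ M := by exact_mod_cast hM
  have hpos : ∀ p ∈ f.support, 0 ≤ p.2 := fun p hp => (supp hM hf hp).1
  have hlow : ∀ j < h - (2 * M + 3), (colp f ((M + 1 : ℕ) : ℤ)).coeff j = 0 := by
    intro j hj
    rw [colp_coeff f hpos]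
    by_contra hne
    have hp : (((M + 1 : ℕ) : ℤ), (j : ℤ)) ∈ f.support := Finsupp.mem_support_iff.2 hne
    obtain ⟨-, -, h3, h4, -⟩ := supp hM hf hp
    simp only [Int.cast_natCast] at h4
    have h5 : (2 : ℝ) * M + 4 ≤ (h : ℝ) - j := by
      have : j + (2 * M + 4) ≤ h := by omega
      have : ((j + (2 * M + 4) : ℕ) : ℝ) ≤ h := by exact_mod_cast this
      push_cast at this
      linarith
    have h7 := mul_le_mul_of_nonneg_left h5 (show (0 : ℝ) ≤ KG M - M by linarith)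
    push_cast at h4
    linarith
  have hdeg : (colp f ((M + 1 : ℕ) : ℤ)).natDegree ≤ h - 2 := by
    rw [natDegree_le_iff_coeff_eq_zero]
    intro j hj
    rw [colp_coeff f hpos]
    by_contra hne
    have hp : (((M + 1 : ℕ) : ℤ), (j : ℤ)) ∈ f.support := Finsupp.mem_support_iff.2 hne
    obtain ⟨-, -, h3, -, h5⟩ := supp hM hf hp
    simp only [Int.cast_natCast] at h5
    have h6 : (h : ℝ) - j ≤ 1 := by
      have : h ≤ j + 1 := by omega
      have : (h : ℝ) ≤ ((j + 1 : ℕ) : ℝ) := by exact_mod_cast this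
      push_cast at this
      linarith
    have h8 := mul_le_mul_of_nonneg_left h6 (show (0 : ℝ) ≤ KG M by linarith)
    push_cast at h5
    linarith
  have htay : ∀ b < M + 1, (taylor 1 (colp f ((M + 1 : ℕ) : ℤ))).coeff b = 0 := by
    intro b hb
    rw [colp_taylor]
    exact wc_low hM hd1 hf hH (by exact_mod_cast hb)
  obtain ⟨q, hq, hqd⟩ := factor hlow htay hdeg
  have hT : taylor 1 (colp f ((M + 1 : ℕ) : ℤ)) =
      X ^ (M + 1) * ((1 + X) ^ (h - (2 * M + 3)) * ((-1) ^ (M + 1) * taylor 1 q)) := by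
    rw [hq, taylor_mul, taylor_mul, taylor_pow, taylor_pow, taylor_X, map_sub, taylor_one,
      taylor_X]
    have e : (C 1 - (X + C 1) : ℚ[X]) = -1 * X := by ring
    rw [e, mul_pow, C_1, add_comm X]
    ring
  refine ⟨(-1) ^ (M + 1) * taylor 1 q, ?_, fun i => ?_⟩
  · have e : ((-1 : ℚ[X]) ^ (M + 1)) = C ((-1) ^ (M + 1)) := by
      rw [C_pow, C_neg, C_1]
    rw [e]
    refine (natDegree_C_mul_le _ _).trans ?_
    rw [natDegree_taylor]
    omega
  · rw [← colp_taylor, hT, add_comm (M + 1) i, coeff_X_pow_mul]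

end

/-- the apex coefficient -/
theorem apexzeroH (coreH : ∀ {M h m e : ℕ}, 1 ≤ M → M ≤ 9 → 5 ≤ e → h = m + e → M * e < m →
      2 * m < (2 * M + 1) * e → ∀ b : ℕ → ℕ → ℚ,
      (∀ i ≤ M + 1, ∃ r : Polynomial ℚ, r.natDegree ≤ i ∧
        (∀ t ≤ M + 1, b t i = ((1 - X) ^ (m - 2 * i) * r).coeff t) ∧ (i = M + 1 → r.eval 1 = 0)) →
      (∀ t ≤ M, ∃ g : Polynomial ℚ, g.natDegree ≤ t - 1 ∧
        ∀ i ≤ M + 1, b t i = ((1 + X) ^ (h - 2 * t) * g).coeff i) →
      (∃ g : Polynomial ℚ, g.natDegree ≤ M ∧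
        ∀ i ≤ M + 1, b (M + 1) i = ((1 + X) ^ (h - (2 * M + 3)) * g).coeff i) → b 0 0 = 0)
    {M h m : ℕ} (hM : 1 ≤ M) (hM9 : M ≤ 9)
    (hd0 : (M : ℝ) * (2 * M + 1 - 2 * KG M) ≤ KG M * h - (KG M + 1) * m)
    (hd1 : KG M * h - (KG M + 1) * m < KG M - M)
    {f : (ℤ × ℤ) →₀ ℚ} (hf : (↑f.support : Set (ℤ × ℤ)) ⊆ ABG M h)
    (hH : ∀ b < m, ∀ c : ℤ, ⌊KG M * h - (KG M + 1) * (b : ℝ)⌋ < c + ((M : ℤ) + 2) * ((m : ℤ) - b) →
      tc f c b = 0) :
    f (0, (h : ℤ)) = 0 := by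
  obtain ⟨k1, k2, k3, k4⟩ := KG_bounds hM
  obtain ⟨l1, l2, l3, l4⟩ := KG_bounds2 hM
  have hM' : (1 : ℝ) ≤ M := by exact_mod_cast hM
  have heps : 0 < 2 * (M : ℝ) + 1 - 2 * KG M := by linarith
  have hMeps : 0 < (M : ℝ) * (2 * M + 1 - 2 * KG M) := mul_pos (by linarith) heps
  -- the number `e`
  have hhm : m < h := by
    by_contra hc
    push Not at hc
    have h1 : (h : ℝ) ≤ m := by exact_mod_cast hc
    have h2 := mul_le_mul_of_nonneg_left h1 (show (0 : ℝ) ≤ KG M by linarith)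
    have h3 : (0 : ℝ) ≤ m := Nat.cast_nonneg m
    linarith
  obtain ⟨e, he⟩ : ∃ e, h = m + e := ⟨h - m, by omega⟩
  have heR : (h : ℝ) = m + e := by rw [he]; push_cast; ring
  have he1 : 1 ≤ e := by omega
  have hKe1 : (M : ℝ) * (2 * M + 1 - 2 * KG M) ≤ KG M * e - m := by rw [heR] at hd0; linarith
  have hKe2 : KG M * e - m < KG M - M := by rw [heR] at hd1; linarith
  have he' : (1 : ℝ) ≤ e := by exact_mod_cast he1
  have he5 : 5 ≤ e := by
    by_contra hc
    have : e = 1 ∨ e = 2 ∨ e = 3 ∨ e = 4 := by omega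
    rcases this with h1 | h1 | h1 | h1
    · rw [h1] at hKe1 hKe2
      push_cast at hKe1 hKe2
      have h3 : (M : ℝ) < m := by linarith
      have h5 : M < m := by exact_mod_cast h3
      have h6 : ((M + 1 : ℕ) : ℝ) ≤ m := by exact_mod_cast h5
      push_cast at h6
      linarith
    · rw [h1] at hKe1 hKe2
      push_cast at hKe1 hKe2
      have h3 : ((2 * M : ℕ) : ℝ) < m := by push_cast; linarith
      have h5 : 2 * M < m := by exact_mod_cast h3
      have h6 : ((2 * M + 1 : ℕ) : ℝ) ≤ m := by exact_mod_cast h5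
      push_cast at h6
      linarith
    · rw [h1] at hKe1 hKe2
      push_cast at hKe1 hKe2
      have h3 : ((3 * M : ℕ) : ℝ) < m := by push_cast; linarith
      have h5 : 3 * M < m := by exact_mod_cast h3
      have h6 : ((3 * M + 1 : ℕ) : ℝ) ≤ m := by exact_mod_cast h5
      push_cast at h6
      linarith
    · rw [h1] at hKe1 hKe2
      push_cast at hKe1 hKe2
      have h3 : ((4 * M + 1 : ℕ) : ℝ) < m := by push_cast; linarith
      have h5 : 4 * M + 1 < m := by exact_mod_cast h3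
      have h6 : ((4 * M + 2 : ℕ) : ℝ) ≤ m := by exact_mod_cast h5
      push_cast at h6
      linarith
  have he5' : (5 : ℝ) ≤ e := by exact_mod_cast he5
  have hm1 : M * e < m := by
    have : ((M * e : ℕ) : ℝ) < m := by
      push_cast
      have h1 := mul_le_mul_of_nonneg_right k1.le (show (0 : ℝ) ≤ e - 1 by linarith)
      nlinarith
    exact_mod_cast this
  have hm2 : 2 * m < (2 * M + 1) * e := by
    have : ((2 * m : ℕ) : ℝ) < (((2 * M + 1) * e : ℕ) : ℝ) := by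
      push_cast
      have h1 := mul_le_mul_of_nonneg_right k2.le (show (0 : ℝ) ≤ e by linarith)
      linarith
    exact_mod_cast this
  have hMm : 2 * (M + 1) ≤ m := by
    have : M * 5 ≤ M * e := Nat.mul_le_mul_left _ he5
    omega
  have hdN : KG M * h - (KG M + 1) * m < ((M + 1 : ℕ) : ℝ) * (2 * M + 1 - 2 * KG M) := by
    push_cast
    linarith
  have key := coreH hM hM9 he5 he hm1 hm2 (fun t i => wc f (t : ℤ) (t + i))
    (fun i hi => row hM hd1 hf hH le_rfl (Nat.le_add_left 1 M) hdN hMm hi)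
    (fun t ht => by
      obtain ⟨g, hg1, hg2⟩ := column hM hd1 hf hH (t := t) ht (by omega)
      exact ⟨g, hg1, fun i _ => hg2 i⟩)
    (by
      obtain ⟨g, hg1, hg2⟩ := column2 hM hd1 hf hH (by omega)
      exact ⟨g, hg1, fun i _ => hg2 i⟩)
  have h9 := colp_taylor f ((0 : ℕ) : ℤ) 0
  simp only [add_zero] at key
  rw [key, col0 hM hf, taylor_coeff_zero] at h9
  simpa using h9

end Pool.Agent.E8helper42.AX
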